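import Pool.Agent.K7.H87.EX.Stm2

/-! Project EX2 (MP_611b97_al), job SOLV. -/

set_option autoImplicit false

namespace Pool.Agent.K7.H26.EXSOLV

open Pool.Agent.K7.H87.EX

theorem t (hLev : StLev) (hDrop : StDrop) (hCom : StCom) (hInv : StInv) : StSolv := by
  intro K _ N hN _ hl hr hcj hfin hcent
  obtain ⟨h0, hmul, hinv, hlt, M, hM⟩ := hLev N hl hr hfin
  have hdrop := hDrop K N hN hl hr hcj hfin
  have hcom := hCom N hl hr hfin
  have hI := hInv K N hN hl hr hcj hfin
  have h1 : lev (1 : N) = 0 := (h0 1).2 rfl
  -- the action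
  have cj_mul : ∀ (g g' : K) (a : N), cj N hN (g * g') a = cj N hN g (cj N hN g' a) := by
    intro g g' a; apply Subtype.ext; simp [cj, mul_assoc]
  have cj_mulr : ∀ (g : K) (a b : N), cj N hN g (a * b) = cj N hN g a * cj N hN g b := by
    intro g a b; apply Subtype.ext; simp [cj, mul_assoc]
  have cj_one : ∀ a : N, cj N hN 1 a = a := by
    intro a; apply Subtype.ext; simp [cj]
  have cj_oner : ∀ g : K, cj N hN g 1 = 1 := by
    intro g; apply Subtype.ext; simp [cj]
  have lev_cj : ∀ (g : K) (a : N), lev (cj N hN g a) ≤ lev a := by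
    intro g a
    unfold lev
    apply Set.ncard_le_ncard
    · rintro C ⟨hC, hmem⟩
      exact ⟨hC, fun ha => hmem (hI g C hC a ha)⟩
    · exact hfin.subset fun C hC => hC.1
  have lev_conj : ∀ (c x : N), lev (c⁻¹ * x * c) ≤ lev x := by
    intro c x
    have := lev_cj (c : K)⁻¹ x
    have e : cj N hN (c : K)⁻¹ x = c⁻¹ * x * c := by
      apply Subtype.ext; simp [cj]
    rwa [e] at this
  -- the claim for one level
  have lev_mul : ∀ (m : ℕ) (a b : N), lev a ≤ m → lev b ≤ m → lev (a * b) ≤ m :=
    fun m a b ha hb => (hmul a b).trans (max_le ha hb)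
  -- subgroup of `K`
  let G : ℕ → Subgroup K := fun m =>
    { carrier := {g | ∀ a : N, lev (a⁻¹ * cj N hN g a) ≤ m}
      one_mem' := by
        intro a
        rw [cj_one, inv_mul_cancel, h1]
        exact Nat.zero_le _
      mul_mem' := by
        intro g g' hg hg' a
        have e : a⁻¹ * cj N hN (g * g') a =
            (a⁻¹ * cj N hN g' a) * ((cj N hN g' a)⁻¹ * cj N hN g (cj N hN g' a)) := by
          rw [cj_mul]; group
        rw [e]
        exact lev_mul m _ _ (hg' a) (hg _)
      inv_mem' := by
        intro g hg a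
        have h2 := hg (cj N hN g⁻¹ a)
        rw [← cj_mul, mul_inv_cancel, cj_one] at h2
        rw [← hinv] at h2
        have e : ((cj N hN g⁻¹ a)⁻¹ * a)⁻¹ = a⁻¹ * cj N hN g⁻¹ a := by group
        rwa [e] at h2 }
  have hG : ∀ m g, g ∈ G m ↔ ∀ a : N, lev (a⁻¹ * cj N hN g a) ≤ m := fun m g => Iff.rfl
  have hle1 : ∀ i : ℕ, derivedSeries K (i + 1) ≤ commutator K := by
    intro i
    rw [← derivedSeries_one]
    exact derivedSeries_antitone K (by omega)
  have step : ∀ i : ℕ, derivedSeries K (i + 1) ≤ G (M - (i + 1)) := by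
    intro i
    induction i with
    | zero =>
      intro g hg a
      have hg' : g ∈ commutator K := hle1 0 hg
      by_cases ha : a = 1
      · subst ha
        rw [cj_oner, inv_one, mul_one, h1]
        exact Nat.zero_le _
      · have := hdrop g hg' a ha
        have := hM a
        omega
    | succ i ih =>
      set j := M - (i + 1) with hj
      have hj1 : M - (i + 1 + 1) = j - 1 := by omega
      rw [hj1, derivedSeries_succ, Subgroup.commutator_le]
      intro g hg g' hg'
      have hgc := hle1 i hg
      have hgc' := hle1 i hg'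
      -- key congruence
      have key : ∀ a : N, lev ((cj N hN (g' * g) a)⁻¹ * cj N hN (g * g') a) ≤ j - 1 := by
        intro a
        set u := a⁻¹ * cj N hN g a with hu
        set v := a⁻¹ * cj N hN g' a with hv
        have hlu : lev u ≤ j := ih hg a
        have hlv : lev v ≤ j := ih hg' a
        have hga : cj N hN g a = a * u := by rw [hu]; group
        have hga' : cj N hN g' a = a * v := by rw [hv]; group
        have e1 : cj N hN (g' * g) a = a * v * cj N hN g' u := by
          rw [cj_mul, hga, cj_mulr, hga']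
        have e2 : cj N hN (g * g') a = a * u * cj N hN g v := by
          rw [cj_mul, hga', cj_mulr, hga]
        have x1 : lev (u⁻¹ * cj N hN g' u) ≤ j - 1 := by
          by_cases hu1 : u = 1
          · rw [hu1, cj_oner, inv_one, mul_one, h1]; exact Nat.zero_le _
          · have := hdrop g' hgc' u hu1
            omega
        have x2 : lev (v⁻¹ * cj N hN g v) ≤ j - 1 := by
          by_cases hv1 : v = 1
          · rw [hv1, cj_oner, inv_one, mul_one, h1]; exact Nat.zero_le _
          · have := hdrop g hgc v hv1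
            omega
        have x3 : lev (u⁻¹ * v⁻¹ * u * v) ≤ j - 1 := by
          by_cases hu1 : u = 1
          · have : u⁻¹ * v⁻¹ * u * v = 1 := by rw [hu1]; group
            rw [this, h1]; exact Nat.zero_le _
          by_cases hv1 : v = 1
          · have : u⁻¹ * v⁻¹ * u * v = 1 := by rw [hv1]; group
            rw [this, h1]; exact Nat.zero_le _
          rcases le_total (lev v) (lev u) with h | h
          · have := hcom u v hu1 h
            omega
          · have h3 := hcom v u hv1 h
            rw [← hinv] at h3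
            have e : (v⁻¹ * u⁻¹ * v * u)⁻¹ = u⁻¹ * v⁻¹ * u * v := by group
            rw [e] at h3
            omega
        have e3 : (cj N hN (g' * g) a)⁻¹ * cj N hN (g * g') a =
            (u⁻¹ * cj N hN g' u)⁻¹ * (u⁻¹ * v⁻¹ * u * v) * (v⁻¹ * cj N hN g v) := by
          rw [e1, e2]; group
        rw [e3]
        refine lev_mul _ _ _ (lev_mul _ _ _ ?_ x3) x2
        rw [hinv]; exact x1
      rw [hG]
      intro a
      have h2 := key (cj N hN (g' * g)⁻¹ a)
      rw [← cj_mul, ← cj_mul, mul_inv_cancel, cj_one] at h2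
      have e : g * g' * (g' * g)⁻¹ = g * g' * g⁻¹ * g'⁻¹ := by group
      rw [commutatorElement_def]
      rwa [e] at h2
  have hcenter : derivedSeries K (M + 1) ≤ Subgroup.center K := by
    intro g hg
    apply hcent
    intro a ha
    have h2 := step M hg ⟨a, ha⟩
    have h3 : M - (M + 1) = 0 := by omega
    rw [h3, Nat.le_zero, h0] at h2
    have h4 : cj N hN g ⟨a, ha⟩ = ⟨a, ha⟩ := (inv_mul_eq_one.1 h2).symm
    have h5 : g * a * g⁻¹ = a := congrArg Subtype.val h4
    rw [mul_inv_eq_iff_eq_mul] at h5
    exact h5.symm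
  refine ⟨⟨M + 2, ?_⟩⟩
  rw [derivedSeries_succ, eq_bot_iff, Subgroup.commutator_le]
  intro g hg g' _
  have h2 := hcenter hg
  rw [Subgroup.mem_center_iff] at h2
  rw [Subgroup.mem_bot, commutatorElement_eq_one_iff_mul_comm]
  exact (h2 g').symm

end Pool.Agent.K7.H26.EXSOLV
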