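import Pool.Agent.K7.H7.TB.Stm

set_option autoImplicit false

open MeasureTheory Metric Set Pool.Agent.K7.H7.TB
open scoped NNReal ENNReal

/-! # Project TB, job KN: Kneser's inequality by the nearest point map -/

namespace Pool.Agent.K7.H26.TBKN

theorem vol_smul : ∃ c : ℝ≥0, (volume : Measure E) = c • μH[(3 : ℕ)] := by
  have h3 : (μH[(3 : ℕ)] : Measure E).IsAddHaarMeasure := by
    simpa [E] using isAddHaarMeasure_hausdorffMeasure (E := E)
  exact ⟨_, Measure.isAddLeftInvariant_eq_smul (volume : Measure E) μH[(3 : ℕ)]⟩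

theorem anti_vol {f : E → E} {k : ℝ≥0} (hf : AntilipschitzWith k f) (A : Set E) :
    volume A ≤ (k : ℝ≥0∞) ^ 3 * volume (f '' A) := by
  obtain ⟨c, hc⟩ := vol_smul
  have h := hf.le_hausdorffMeasure_image (d := ((3 : ℕ) : ℝ)) (by norm_num) A
  rw [ENNReal.rpow_natCast] at h
  rw [hc]
  simp only [Measure.smul_apply, ENNReal.smul_def, smul_eq_mul]
  calc (c : ℝ≥0∞) * μH[(3 : ℕ)] A ≤ c * ((k : ℝ≥0∞) ^ 3 * μH[(3 : ℕ)] (f '' A)) := by gcongr
    _ = (k : ℝ≥0∞) ^ 3 * (c * μH[(3 : ℕ)] (f '' A)) := by ring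

theorem t : StKn := by
  intro S α k hS hne hα hk
  have hk0 : (0 : ℝ) < k := by linarith
  choose P hPS hP using fun x : E => hS.exists_infDist_eq_dist hne x
  let φ : E → E := fun x => P x + (1 / k) • (x - P x)
  have hmono : ∀ x y : E, 0 ≤ inner ℝ (P x - P y) (x - y) := by
    intro x y
    have h1 : ‖x - P x‖ ^ 2 ≤ ‖x - P y‖ ^ 2 := by
      have : ‖x - P x‖ ≤ ‖x - P y‖ := by
        rw [← dist_eq_norm, ← dist_eq_norm, ← hP]; exact infDist_le_dist_of_mem (hPS y)
      gcongr
    have h2 : ‖y - P y‖ ^ 2 ≤ ‖y - P x‖ ^ 2 := by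
      have : ‖y - P y‖ ≤ ‖y - P x‖ := by
        rw [← dist_eq_norm, ← dist_eq_norm, ← hP]; exact infDist_le_dist_of_mem (hPS x)
      gcongr
    simp only [@norm_sub_sq_real E] at h1 h2
    simp only [inner_sub_left, inner_sub_right]
    have e1 := real_inner_comm x (P x)
    have e2 := real_inner_comm x (P y)
    have e3 := real_inner_comm y (P x)
    have e4 := real_inner_comm y (P y)
    linarith
  have hanti : AntilipschitzWith (Real.toNNReal k) φ := by
    apply AntilipschitzWith.of_le_mul_dist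
    intro x y
    rw [Real.coe_toNNReal _ hk0.le, dist_eq_norm, dist_eq_norm]
    have h : (1 / k) * ‖x - y‖ ^ 2 ≤ inner ℝ (φ x - φ y) (x - y) := by
      have : φ x - φ y = (1 - 1 / k) • (P x - P y) + (1 / k) • (x - y) := by
        simp only [φ]; module
      rw [this, inner_add_left, inner_smul_left, inner_smul_left, real_inner_self_eq_norm_sq]
      simp only [conj_trivial]
      have h1k : 0 ≤ 1 - 1 / k := by
        rw [sub_nonneg, div_le_one hk0]; exact hk
      nlinarith [mul_nonneg h1k (hmono x y)]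
    have h2 := real_inner_le_norm (φ x - φ y) (x - y)
    rcases (norm_nonneg (x - y)).eq_or_lt with h0 | h0
    · rw [← h0]; positivity
    · have h3 : (1 / k) * ‖x - y‖ ≤ ‖φ x - φ y‖ := by
        have : (1 / k) * ‖x - y‖ * ‖x - y‖ ≤ ‖φ x - φ y‖ * ‖x - y‖ := by nlinarith
        exact le_of_mul_le_mul_right this h0
      calc ‖x - y‖ = k * ((1 / k) * ‖x - y‖) := by field_simp
        _ ≤ k * ‖φ x - φ y‖ := by gcongr
  have himg : φ '' torus S (k * α) ⊆ torus S α := by
    rintro _ ⟨x, hx, rfl⟩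
    have hx' : infDist x S ≤ k * α := hx
    show infDist (φ x) S ≤ α
    refine (infDist_le_dist_of_mem (hPS x)).trans ?_
    have : φ x - P x = (1 / k) • (x - P x) := by simp only [φ]; abel
    rw [dist_eq_norm, this, norm_smul, ← dist_eq_norm, ← hP, Real.norm_of_nonneg (by positivity)]
    calc 1 / k * infDist x S ≤ 1 / k * (k * α) := by gcongr
      _ = α := by field_simp
  calc volume (torus S (k * α)) ≤ ((Real.toNNReal k : ℝ≥0) : ℝ≥0∞) ^ 3 * volume (φ '' torus S (k * α)) :=
        anti_vol hanti _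
    _ ≤ ENNReal.ofReal (k ^ 3) * volume (torus S α) := by
        rw [ENNReal.ofReal_pow hk0.le]
        exact mul_le_mul' le_rfl (measure_mono himg)

end Pool.Agent.K7.H26.TBKN
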