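import Pool.Agent.K7.H7.TB.Stm

set_option autoImplicit false

open MeasureTheory Metric Set Pool.Agent.K7.H7.TB
open scoped NNReal ENNReal

/-! # Project TB, job LIP: the volume of the part of a torus in a ball is Lipschitz -/

namespace Pool.Agent.K7.H26.TBLIP

/-- the points of the circle -/
noncomputable def pt (p : Fin 4 → ℝ) (t : ℝ) : E :=
  (p 0 • e 0 + p 1 • e 2) + p 2 • (Real.cos t • e 0 + Real.sin t • e 1)

theorem S0_eq (p : Fin 4 → ℝ) : S0 p = range (pt p) := by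
  ext x
  simp only [S0, circle, mem_setOf_eq, mem_range, pt]
  constructor
  · rintro ⟨t, rfl⟩; exact ⟨t, rfl⟩
  · rintro ⟨t, rfl⟩; exact ⟨t, rfl⟩

theorem compact_S0 (p : Fin 4 → ℝ) : IsCompact (S0 p) := by
  rw [S0_eq]
  refine Function.Periodic.compact_of_continuous (c := 2 * Real.pi) ?_ (by positivity) ?_
  · intro t
    simp only [pt, Real.cos_add_two_pi, Real.sin_add_two_pi]
  · unfold pt
    fun_prop

theorem nonempty_S0 (p : Fin 4 → ℝ) : (S0 p).Nonempty := by
  rw [S0_eq]; exact range_nonempty _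

theorem norm_e (i : Fin 3) : ‖e i‖ = 1 := by simp [e]

theorem norm_dir (t : ℝ) : ‖Real.cos t • e 0 + Real.sin t • e 1‖ ≤ 2 := by
  refine (norm_add_le _ _).trans ?_
  rw [norm_smul, norm_smul, norm_e, norm_e, Real.norm_eq_abs, Real.norm_eq_abs]
  have := Real.abs_cos_le_one t
  have := Real.abs_sin_le_one t
  linarith

theorem norm_pt (p : Fin 4 → ℝ) {n : ℕ} (hp : p ∈ Q n) (t : ℝ) : ‖pt p t‖ ≤ 4 * n := by
  unfold pt
  refine (norm_add₃_le).trans ?_
  rw [norm_smul, norm_smul, norm_smul, norm_e, norm_e, Real.norm_eq_abs, Real.norm_eq_abs,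
    Real.norm_eq_abs]
  have h0 := hp.1 0
  have h1 := hp.1 1
  have h2 := hp.1 2
  have h3 := norm_dir t
  have : |p 2| * ‖Real.cos t • e 0 + Real.sin t • e 1‖ ≤ n * 2 := by
    gcongr
  linarith

theorem dist_pt (p q : Fin 4 → ℝ) (t : ℝ) : dist (pt p t) (pt q t) ≤ 4 * dist p q := by
  have h0 : |p 0 - q 0| ≤ dist p q := by
    rw [← Real.dist_eq]; exact dist_le_pi_dist p q 0
  have h1 : |p 1 - q 1| ≤ dist p q := by
    rw [← Real.dist_eq]; exact dist_le_pi_dist p q 1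
  have h2 : |p 2 - q 2| ≤ dist p q := by
    rw [← Real.dist_eq]; exact dist_le_pi_dist p q 2
  have h : pt p t - pt q t = (p 0 - q 0) • e 0 + (p 1 - q 1) • e 2 +
      (p 2 - q 2) • (Real.cos t • e 0 + Real.sin t • e 1) := by
    unfold pt; module
  rw [dist_eq_norm, h]
  refine (norm_add₃_le).trans ?_
  rw [norm_smul, norm_smul, norm_smul, norm_e, norm_e, Real.norm_eq_abs, Real.norm_eq_abs,
    Real.norm_eq_abs]
  have : |p 2 - q 2| * ‖Real.cos t • e 0 + Real.sin t • e 1‖ ≤ dist p q * 2 := by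
    have := norm_dir t
    gcongr
  linarith

theorem infDist_S0 (p q : Fin 4 → ℝ) (x : E) :
    infDist x (S0 q) ≤ infDist x (S0 p) + 4 * dist p q := by
  obtain ⟨y, hy, hxy⟩ := (compact_S0 p).exists_infDist_eq_dist (nonempty_S0 p) x
  rw [S0_eq] at hy
  obtain ⟨t, rfl⟩ := hy
  have : pt q t ∈ S0 q := by rw [S0_eq]; exact mem_range_self t
  calc infDist x (S0 q) ≤ dist x (pt q t) := infDist_le_dist_of_mem this
    _ ≤ dist x (pt p t) + dist (pt p t) (pt q t) := dist_triangle _ _ _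
    _ ≤ infDist x (S0 p) + 4 * dist p q := by
      rw [hxy]; exact add_le_add le_rfl (dist_pt p q t)

theorem T0_sub (p q : Fin 4 → ℝ) : T0 p ⊆ torus (S0 q) (q 3 + 5 * dist p q) := by
  intro x hx
  have hx' : infDist x (S0 p) ≤ p 3 := hx
  have h3 : |p 3 - q 3| ≤ dist p q := by
    rw [← Real.dist_eq]; exact dist_le_pi_dist p q 3
  have h3' := (abs_le.1 h3).2
  have := infDist_S0 p q x
  show infDist x (S0 q) ≤ q 3 + 5 * dist p q
  linarith

theorem T0_ball {n : ℕ} {q : Fin 4 → ℝ} (hq : q ∈ Q n) : T0 q ⊆ closedBall (0 : E) (5 * n) := by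
  intro x hx
  have hx' : infDist x (S0 q) ≤ q 3 := hx
  obtain ⟨y, hy, hxy⟩ := (compact_S0 q).exists_infDist_eq_dist (nonempty_S0 q) x
  rw [S0_eq] at hy
  obtain ⟨t, rfl⟩ := hy
  have h3 := (abs_le.1 (hq.1 3)).2
  have h4 := norm_pt q hq t
  rw [mem_closedBall, dist_zero_right]
  calc ‖x‖ ≤ dist x (pt q t) + ‖pt q t‖ := by
        rw [dist_eq_norm]
        calc ‖x‖ = ‖(x - pt q t) + pt q t‖ := by rw [sub_add_cancel]
          _ ≤ _ := norm_add_le _ _
    _ ≤ n + 4 * n := by rw [← hxy]; linarith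
    _ = 5 * n := by ring

theorem closed_torus (S : Set E) (a : ℝ) : IsClosed (torus S a) :=
  isClosed_le (continuous_infDist_pt S) continuous_const

/-- one-sided estimate -/
theorem one_side (hK : StKn) (n : ℕ) (j : ℕ) {p q : Fin 4 → ℝ} (hp : p ∈ Q n) (hq : q ∈ Q n) :
    b j p - b j q ≤ (5 * ((n : ℝ) + 1) * (3 * (1 + 10 * ((n : ℝ) + 1) * n) ^ 2) *
      (volume (closedBall (0 : E) (5 * n))).toReal) * dist p q := by
  set d := dist p q with hd
  set M := (volume (closedBall (0 : E) (5 * n))).toReal with hM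
  set B := ball (0 : E) ((j : ℝ) + 1) with hB
  have hd0 : 0 ≤ d := dist_nonneg
  have hn0 : (0 : ℝ) ≤ n := Nat.cast_nonneg n
  have hd2 : d ≤ 2 * n := by
    rw [hd, dist_pi_le_iff (by positivity)]
    intro i
    have h1 := abs_le.1 (hp.1 i)
    have h2 := abs_le.1 (hq.1 i)
    rw [Real.dist_eq, abs_le]
    constructor <;> linarith
  have hn1 : (0 : ℝ) < (n : ℝ) + 1 := by positivity
  have hq3 : 1 / ((n : ℝ) + 1) ≤ q 3 := hq.2.2
  have hq3pos : 0 < q 3 := lt_of_lt_of_le (by positivity) hq3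
  set k := 1 + 5 * d / q 3 with hk
  have hk1 : 1 ≤ k := by
    have : 0 ≤ 5 * d / q 3 := by positivity
    linarith
  have hkle : k - 1 ≤ 5 * ((n : ℝ) + 1) * d := by
    have : 5 * d / q 3 ≤ 5 * ((n : ℝ) + 1) * d := by
      rw [div_le_iff₀ hq3pos]
      have h1 : 1 ≤ ((n : ℝ) + 1) * q 3 := by
        rw [div_le_iff₀ hn1] at hq3
        linarith
      nlinarith
    linarith
  have hkK : k ≤ 1 + 10 * ((n : ℝ) + 1) * n := by nlinarith
  have hkq : k * q 3 = q 3 + 5 * d := by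
    rw [hk]; field_simp
  have hT : volume (torus (S0 q) (k * q 3)) ≤ ENNReal.ofReal (k ^ 3) * volume (T0 q) :=
    hK (S0 q) (q 3) k (compact_S0 q) (nonempty_S0 q) hq3pos hk1
  have hfinM : volume (closedBall (0 : E) (5 * n)) ≠ ⊤ := measure_closedBall_lt_top.ne
  have hfinT : volume (T0 q) ≠ ⊤ := ne_top_of_le_ne_top hfinM (measure_mono (T0_ball hq))
  have hfinB : volume B ≠ ⊤ := measure_ball_lt_top.ne
  have hfinK : volume (torus (S0 q) (k * q 3)) ≠ ⊤ :=
    ne_top_of_le_ne_top (ENNReal.mul_ne_top ENNReal.ofReal_ne_top hfinT) hT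
  -- the difference set
  have hsub : T0 q ⊆ torus (S0 q) (k * q 3) := by
    intro x hx
    have hx' : infDist x (S0 q) ≤ q 3 := hx
    show infDist x (S0 q) ≤ k * q 3
    nlinarith
  have hmeas : MeasurableSet (T0 q) := (closed_torus _ _).measurableSet
  have hdiff : volume (torus (S0 q) (k * q 3) \ T0 q) =
      volume (torus (S0 q) (k * q 3)) - volume (T0 q) :=
    measure_diff hsub hmeas.nullMeasurableSet hfinT
  have hcov : T0 p ∩ B ⊆ (T0 q ∩ B) ∪ (torus (S0 q) (k * q 3) \ T0 q) := by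
    rintro x ⟨hx, hxB⟩
    by_cases hxq : x ∈ T0 q
    · exact Or.inl ⟨hxq, hxB⟩
    · refine Or.inr ⟨?_, hxq⟩
      rw [hkq]
      exact T0_sub p q hx
  have h1 : (volume (T0 p ∩ B)).toReal ≤ (volume (T0 q ∩ B)).toReal +
      ((volume (torus (S0 q) (k * q 3))).toReal - (volume (T0 q)).toReal) := by
    have h := (measure_mono (μ := volume) hcov).trans (measure_union_le _ _)
    rw [hdiff] at h
    have hf1 : volume (T0 q ∩ B) ≠ ⊤ := ne_top_of_le_ne_top hfinB (measure_mono inter_subset_right)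
    have hf2 : volume (torus (S0 q) (k * q 3)) - volume (T0 q) ≠ ⊤ :=
      ne_top_of_le_ne_top hfinK tsub_le_self
    have h' := ENNReal.toReal_mono (ENNReal.add_ne_top.2 ⟨hf1, hf2⟩) h
    rw [ENNReal.toReal_add hf1 hf2, ENNReal.toReal_sub_of_le (measure_mono hsub) hfinK] at h'
    exact h'
  have h2 : (volume (torus (S0 q) (k * q 3))).toReal ≤ k ^ 3 * (volume (T0 q)).toReal := by
    have h := ENNReal.toReal_mono (ENNReal.mul_ne_top ENNReal.ofReal_ne_top hfinT) hT
    rw [ENNReal.toReal_mul, ENNReal.toReal_ofReal (by positivity)] at h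
    exact h
  have h3 : (volume (T0 q)).toReal ≤ M := ENNReal.toReal_mono hfinM (measure_mono (T0_ball hq))
  have h0T : 0 ≤ (volume (T0 q)).toReal := ENNReal.toReal_nonneg
  have h0M : 0 ≤ M := ENNReal.toReal_nonneg
  have hcube : k ^ 3 - 1 ≤ (5 * ((n : ℝ) + 1) * (3 * (1 + 10 * ((n : ℝ) + 1) * n) ^ 2)) * d := by
    set K := 1 + 10 * ((n : ℝ) + 1) * n with hKd
    have hK2 : k ^ 2 + k + 1 ≤ 3 * K ^ 2 := by nlinarith
    calc k ^ 3 - 1 = (k - 1) * (k ^ 2 + k + 1) := by ring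
      _ ≤ (5 * ((n : ℝ) + 1) * d) * (3 * K ^ 2) := by
          apply mul_le_mul hkle hK2 (by positivity) (by positivity)
      _ = _ := by ring
  have hk3 : 0 ≤ k ^ 3 - 1 := by
    have : 1 ≤ k ^ 3 := one_le_pow₀ hk1
    linarith
  unfold b
  calc (volume (T0 p ∩ B)).toReal - (volume B).toReal / 2 -
        ((volume (T0 q ∩ B)).toReal - (volume B).toReal / 2)
      ≤ (k ^ 3 - 1) * (volume (T0 q)).toReal := by linarith
    _ ≤ ((5 * ((n : ℝ) + 1) * (3 * (1 + 10 * ((n : ℝ) + 1) * n) ^ 2)) * d) * M :=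
        mul_le_mul hcube h3 h0T (hk3.trans hcube)
    _ = _ := by ring

theorem t (hK : StKn) : StLip := by
  intro n
  refine ⟨5 * ((n : ℝ) + 1) * (3 * (1 + 10 * ((n : ℝ) + 1) * n) ^ 2) *
      (volume (closedBall (0 : E) (5 * n))).toReal, by positivity, ?_⟩
  intro j p hp q hq
  rw [abs_le]
  have h1 := one_side hK n j hp hq
  have h2 := one_side hK n j hq hp
  rw [dist_comm q p] at h2
  constructor <;> linarith

end Pool.Agent.K7.H26.TBLIP
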